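import Pool.Agent.H8.TD.Targets

/-!
# The general fibres of a function on a curve have as many points as its degree (row LOW)
-/

set_option autoImplicit false

open MvPolynomial
open Pool.Agent.H12.ZD (pmap v O Res DenseOrbit NoInv)
open Pool.Agent.H18.HIT
open Pool.Agent.H8.ZA (HFam Const NA sz)
open Pool.Agent.H8.TD

namespace Pool.Agent.H11.TD

/-- common denominators -/
theorem den {κ C : Type} [Field κ] [Field C] [Algebra κ C] (z : C) {ι : Type} [DecidableEq ι]
    (s : Finset ι) (a : ι → C) (ha : ∀ i ∈ s, a i ∈ IntermediateField.adjoin κ {z})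
    (_hz : Transcendental κ z) : ∃ h : Polynomial κ, h ≠ 0 ∧ ∀ i ∈ s, ∃ p : Polynomial κ,
      Polynomial.aeval z h * a i = Polynomial.aeval z p := by
  induction s using Finset.induction_on with
  | empty => exact ⟨1, one_ne_zero, fun i hi => absurd hi (Finset.notMem_empty i)⟩
  | insert i s his ih =>
    obtain ⟨h, h0, h1⟩ := ih fun j hj => ha j (Finset.mem_insert_of_mem hj)
    obtain ⟨r, t, ht0, hrt⟩ : ∃ r t : Polynomial κ, t ≠ 0 ∧
        Polynomial.aeval z t * a i = Polynomial.aeval z r := by
      obtain ⟨r, t, hrt⟩ := IntermediateField.mem_adjoin_simple_iff κ (a i) |>.1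
        (ha i (Finset.mem_insert_self i s))
      by_cases ht : Polynomial.aeval z t = 0
      · refine ⟨0, 1, one_ne_zero, ?_⟩
        rw [hrt, ht, div_zero, mul_zero, map_zero]
      · refine ⟨r, t, fun h => ht (by rw [h, map_zero]), ?_⟩
        rw [hrt]
        field_simp
    refine ⟨h * t, mul_ne_zero h0 ht0, ?_⟩
    intro j hj
    rcases Finset.mem_insert.1 hj with rfl | hj
    · exact ⟨h * r, by rw [map_mul, map_mul, ← hrt]; ring⟩
    · obtain ⟨p, hp⟩ := h1 j hj
      exact ⟨p * t, by rw [map_mul, map_mul, ← hp]; ring⟩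

theorem pf_LOW : T_LOW := by
  classical
  intro κ C _ _ _ R z hR hgen hz hfin
  obtain ⟨K₀, hK⟩ : ∃ K₀, K₀ = IntermediateField.adjoin κ {(z : C)} := ⟨_, rfl⟩
  have hdg : dg κ {(z : C)} = Module.finrank K₀ C := by rw [hK]; rfl
  rw [← hK] at hfin
  rw [hdg]
  -- the span of R
  have hspan : ⊤ ≤ Submodule.span K₀ (R : Set C) := by
    have h1 : IntermediateField.adjoin K₀ (R : Set C) = ⊤ := by
      rw [eq_top_iff]
      intro x _
      have h10 : x ∈ IntermediateField.adjoin κ (R : Set C) := by rw [hgen]; trivial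
      have h11 : IntermediateField.adjoin κ (R : Set C) ≤
          (IntermediateField.adjoin K₀ (R : Set C)).restrictScalars κ := by
        rw [IntermediateField.adjoin_le_iff]
        exact IntermediateField.subset_adjoin _ _
      exact h11 h10
    have h2 : (IntermediateField.adjoin K₀ (R : Set C)).toSubalgebra =
        Algebra.adjoin K₀ (R : Set C) :=
      IntermediateField.adjoin_toSubalgebra_of_isAlgebraic
        fun x _ => Algebra.IsAlgebraic.isAlgebraic x
    rw [h1, IntermediateField.top_toSubalgebra] at h2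
    have h3 := Algebra.adjoin_eq_span K₀ (R : Set C)
    have h4 : Submonoid.closure (R : Set C) = R.toSubmonoid :=
      Submonoid.closure_eq R.toSubmonoid
    rw [h4, ← h2] at h3
    intro x _
    have h5 : x ∈ Subalgebra.toSubmodule (⊤ : Subalgebra K₀ C) := by simp
    rw [h3] at h5
    exact h5
  obtain ⟨ι, hι, b, hb⟩ : ∃ (ι : Type) (_ : Fintype ι) (b : Module.Basis ι K₀ C),
      ∀ i, b i ∈ R := by
    have h1 := Module.Basis.ofSpan_subset hspan
    obtain ⟨b, hb⟩ : ∃ b, b = Module.Basis.ofSpan hspan := ⟨_, rfl⟩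
    rw [← hb] at h1
    exact ⟨_, FiniteDimensional.fintypeBasisIndex b, b, fun i => h1 ⟨i, rfl⟩⟩
  have hcard : Module.finrank K₀ C = Fintype.card ι := Module.finrank_eq_card_basis b
  rw [hcard]
  -- polynomials in z
  have hzK : (z : C) ∈ K₀ := by
    rw [hK]; exact IntermediateField.mem_adjoin_simple_self κ (z : C)
  obtain ⟨g, hg⟩ : ∃ g : K₀, (g : C) = z := ⟨⟨z, hzK⟩, rfl⟩
  have hev : ∀ p : Polynomial κ, ((Polynomial.aeval g p : K₀) : C) = Polynomial.aeval (z : C) p := by
    intro p
    rw [← hg]
    exact (Polynomial.aeval_algebraMap_apply C g p).symm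
  -- generators
  obtain ⟨S, hS⟩ := hR
  -- the denominator
  obtain ⟨E, hE⟩ : ∃ E : Finset C, E = insert 1 (Finset.image₂ (fun s i => s * b i) S
    Finset.univ) := ⟨_, rfl⟩
  obtain ⟨h, h0, h1⟩ : ∃ h : Polynomial κ, h ≠ 0 ∧ ∀ e ∈ E, ∃ p : ι → Polynomial κ,
      Polynomial.aeval (z : C) h * e = ∑ j, Polynomial.aeval (z : C) (p j) * b j := by
    obtain ⟨h, h0, h1⟩ := den (κ := κ) (z : C) (E ×ˢ (Finset.univ : Finset ι))
      (fun t => ((b.repr t.1 t.2 : K₀) : C)) (fun t _ => by
        have := (b.repr t.1 t.2).2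
        rw [← hK]
        exact this) hz
    refine ⟨h, h0, fun e he => ?_⟩
    have h2 : ∀ j, ∃ p : Polynomial κ, Polynomial.aeval (z : C) h * ((b.repr e j : K₀) : C) =
        Polynomial.aeval (z : C) p := fun j =>
      h1 (e, j) (Finset.mem_product.2 ⟨he, Finset.mem_univ j⟩)
    choose p hp using h2
    refine ⟨p, ?_⟩
    have h3 : e = ∑ j, ((b.repr e j : K₀) : C) * b j := by
      conv_lhs => rw [← b.sum_repr e]
      rfl
    conv_lhs => rw [h3]
    rw [Finset.mul_sum]
    refine Finset.sum_congr rfl fun j _ => ?_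
    rw [← hp j]
    ring
  -- good elements
  have hgood : ∀ x ∈ R, ∃ (n : ℕ) (p : ι → Polynomial κ),
      Polynomial.aeval (z : C) h ^ n * x = ∑ j, Polynomial.aeval (z : C) (p j) * b j := by
    obtain ⟨G, hG⟩ : ∃ G : C → Prop, ∀ y, G y ↔ ∃ (n : ℕ) (p : ι → Polynomial κ),
      Polynomial.aeval (z : C) h ^ n * y = ∑ j, Polynomial.aeval (z : C) (p j) * b j :=
      ⟨_, fun y => Iff.rfl⟩
    have hadd : ∀ y y', G y → G y' → G (y + y') := by
      intro y y' hy hy'
      obtain ⟨n, p, hp⟩ := (hG y).1 hy
      obtain ⟨n', p', hp'⟩ := (hG y').1 hy'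
      refine (hG _).2 ⟨n + n', fun j => h ^ n' * p j + h ^ n * p' j, ?_⟩
      have e1 : ∀ j, Polynomial.aeval (z : C) (h ^ n' * p j + h ^ n * p' j) * b j =
          Polynomial.aeval (z : C) h ^ n' * (Polynomial.aeval (z : C) (p j) * b j) +
          Polynomial.aeval (z : C) h ^ n * (Polynomial.aeval (z : C) (p' j) * b j) := by
        intro j
        simp only [map_add, map_mul, map_pow]
        ring
      rw [Finset.sum_congr rfl fun j _ => e1 j, Finset.sum_add_distrib, ← Finset.mul_sum,
        ← Finset.mul_sum, ← hp, ← hp']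
      ring
    have hsmul : ∀ (c : κ) y, G y → G (algebraMap κ C c * y) := by
      intro c y hy
      obtain ⟨n, p, hp⟩ := (hG y).1 hy
      refine (hG _).2 ⟨n, fun j => Polynomial.C c * p j, ?_⟩
      have e1 : ∀ j, Polynomial.aeval (z : C) (Polynomial.C c * p j) * b j =
          algebraMap κ C c * (Polynomial.aeval (z : C) (p j) * b j) := by
        intro j
        rw [map_mul, Polynomial.aeval_C]
        ring
      rw [Finset.sum_congr rfl fun j _ => e1 j, ← Finset.mul_sum, ← hp]
      ring
    have hpoly : ∀ (q : Polynomial κ) y, G y → G (Polynomial.aeval (z : C) q * y) := by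
      intro q y hy
      obtain ⟨n, p, hp⟩ := (hG y).1 hy
      refine (hG _).2 ⟨n, fun j => q * p j, ?_⟩
      have e1 : ∀ j, Polynomial.aeval (z : C) (q * p j) * b j =
          Polynomial.aeval (z : C) q * (Polynomial.aeval (z : C) (p j) * b j) := by
        intro j
        rw [map_mul]
        ring
      rw [Finset.sum_congr rfl fun j _ => e1 j, ← Finset.mul_sum, ← hp]
      ring
    have hzero : G 0 := (hG _).2 ⟨0, fun _ => 0, by simp⟩
    have hsum : ∀ (s : Finset ι) (f : ι → C), (∀ i ∈ s, G (f i)) → G (∑ i ∈ s, f i) := by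
      intro s f hf
      induction s using Finset.induction_on with
      | empty => simpa using hzero
      | insert i s his ih =>
        rw [Finset.sum_insert his]
        exact hadd _ _ (hf i (Finset.mem_insert_self i s))
          (ih fun j hj => hf j (Finset.mem_insert_of_mem hj))
    have hdiv : ∀ y, G (Polynomial.aeval (z : C) h * y) → G y := by
      intro y hy
      obtain ⟨n, p, hp⟩ := (hG _).1 hy
      exact (hG _).2 ⟨n + 1, p, by rw [← hp]; ring⟩
    have hdivn : ∀ (n : ℕ) y, G (Polynomial.aeval (z : C) h ^ n * y) → G y := by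
      intro n
      induction n with
      | zero => intro y hy; simpa using hy
      | succ n ih =>
        intro y hy
        apply ih
        apply hdiv
        have e1 : Polynomial.aeval (z : C) h * (Polynomial.aeval (z : C) h ^ n * y) =
          Polynomial.aeval (z : C) h ^ (n + 1) * y := by ring
        rw [e1]
        exact hy
    have hE' : ∀ e ∈ E, G e := by
      intro e he
      obtain ⟨p, hp⟩ := h1 e he
      exact (hG _).2 ⟨1, p, by rw [pow_one]; exact hp⟩
    have hone : G 1 := hE' 1 (by rw [hE]; exact Finset.mem_insert_self _ _)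
    have hgenr : ∀ s ∈ S, ∀ y, G y → G (s * y) := by
      intro s hs y hy
      obtain ⟨n, p, hp⟩ := (hG y).1 hy
      apply hdivn n
      have e1 : Polynomial.aeval (z : C) h ^ n * (s * y) =
          ∑ j, Polynomial.aeval (z : C) (p j) * (s * b j) := by
        have e2 : Polynomial.aeval (z : C) h ^ n * (s * y) =
          s * (Polynomial.aeval (z : C) h ^ n * y) := by ring
        rw [e2, hp, Finset.mul_sum]
        refine Finset.sum_congr rfl fun j _ => ?_
        ring
      rw [e1]
      refine hsum _ _ fun j _ => hpoly _ _ (hE' _ ?_)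
      rw [hE]
      exact Finset.mem_insert_of_mem (Finset.mem_image₂_of_mem hs (Finset.mem_univ j))
    have hmul : ∀ x ∈ Algebra.adjoin κ (S : Set C), ∀ y, G y → G (x * y) := by
      intro x hx
      induction hx using Algebra.adjoin_induction with
      | mem x hx => exact hgenr x hx
      | algebraMap r => exact hsmul r
      | add x x' _ _ ih ih' =>
        intro y hy
        rw [add_mul]
        exact hadd _ _ (ih y hy) (ih' y hy)
      | mul x x' _ _ ih ih' =>
        intro y hy
        rw [mul_assoc]
        exact ih _ (ih' y hy)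
    intro x hx
    rw [← hS] at hx
    have h3 := hmul x hx 1 hone
    rw [mul_one] at h3
    exact (hG x).1 h3
  -- the exceptional values are roots of h
  refine (h.roots.toFinset.finite_toSet).subset ?_
  intro c hc
  rw [Finset.mem_coe, Multiset.mem_toFinset, Polynomial.mem_roots h0]
  by_contra hroot
  apply hc
  have hhc : h.eval c ≠ 0 := hroot
  obtain ⟨I, hI⟩ : ∃ I : Ideal R, I = Ideal.span {z - algebraMap κ R c} := ⟨_, rfl⟩
  rw [← hI]
  obtain ⟨β, hβ⟩ : ∃ β : ι → R ⧸ I, ∀ i, β i = Ideal.Quotient.mk I ⟨b i, hb i⟩ :=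
    ⟨_, fun i => rfl⟩
  have hzc : Ideal.Quotient.mk I z = algebraMap κ (R ⧸ I) c := by
    have h2 : Ideal.Quotient.mk I (z - algebraMap κ R c) = 0 := by
      rw [Ideal.Quotient.eq_zero_iff_mem, hI]
      exact Ideal.mem_span_singleton_self _
    rw [map_sub, sub_eq_zero] at h2
    exact h2
  have hpc : ∀ p : Polynomial κ, Ideal.Quotient.mk I (Polynomial.aeval z p) =
      algebraMap κ (R ⧸ I) (p.eval c) := by
    intro p
    have h2 : Ideal.Quotient.mk I (Polynomial.aeval z p) =
        Polynomial.aeval (Ideal.Quotient.mk I z) p :=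
      (Polynomial.aeval_algHom_apply (Ideal.Quotient.mkₐ κ I) z p).symm
    rw [h2, hzc, Polynomial.aeval_algebraMap_apply]
    simp
  have hli : LinearIndependent κ β := by
    rw [Fintype.linearIndependent_iff]
    intro w hw i
    have h2 : Ideal.Quotient.mk I (∑ j, w j • (⟨b j, hb j⟩ : R)) = 0 := by
      rw [map_sum, ← hw]
      refine Finset.sum_congr rfl fun j _ => ?_
      rw [hβ]
      rfl
    rw [Ideal.Quotient.eq_zero_iff_mem, hI, Ideal.mem_span_singleton'] at h2
    obtain ⟨y, hy⟩ := h2
    obtain ⟨n, p, hp⟩ := hgood (y : C) y.2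
    have hyC : (y : C) * ((z : C) - algebraMap κ C c) = ∑ j, algebraMap κ C (w j) * b j := by
      have h3 := congrArg (fun r : R => (r : C)) hy
      have h4 : ((∑ j, w j • (⟨b j, hb j⟩ : R) : R) : C) = ∑ j, algebraMap κ C (w j) * b j := by
        rw [AddSubmonoidClass.coe_finsetSum]
        refine Finset.sum_congr rfl fun j _ => ?_
        rw [← Algebra.smul_def]
        rfl
      rw [← h4]
      exact h3
    have h5 : ∑ j, (Polynomial.aeval g (Polynomial.C (w j) * h ^ n -
        (Polynomial.X - Polynomial.C c) * p j) : K₀) • b j = 0 := by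
      have e1 : ∀ j, (Polynomial.aeval g (Polynomial.C (w j) * h ^ n -
        (Polynomial.X - Polynomial.C c) * p j) : K₀) • b j =
          Polynomial.aeval (z : C) h ^ n * (algebraMap κ C (w j) * b j) -
          ((z : C) - algebraMap κ C c) * (Polynomial.aeval (z : C) (p j) * b j) := by
        intro j
        have e2 : (Polynomial.aeval g (Polynomial.C (w j) * h ^ n -
          (Polynomial.X - Polynomial.C c) * p j) : K₀) • b j =
          ((Polynomial.aeval g (Polynomial.C (w j) * h ^ n -
          (Polynomial.X - Polynomial.C c) * p j) : K₀) : C) * b j := rfl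
        rw [e2, hev]
        simp only [map_sub, map_mul, map_pow, Polynomial.aeval_C, Polynomial.aeval_X]
        ring
      rw [Finset.sum_congr rfl fun j _ => e1 j, Finset.sum_sub_distrib, ← Finset.mul_sum,
        ← Finset.mul_sum, ← hp, ← hyC]
      ring
    have h6 := Fintype.linearIndependent_iff.1 b.linearIndependent _ h5 i
    have h7 : Polynomial.aeval (z : C) (Polynomial.C (w i) * h ^ n -
        (Polynomial.X - Polynomial.C c) * p i) = 0 := by
      rw [← hev, h6]
      rfl
    have h8 := transcendental_iff.1 hz _ h7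
    have h9 := congrArg (Polynomial.eval c) h8
    simp only [Polynomial.eval_sub, Polynomial.eval_mul, Polynomial.eval_C, Polynomial.eval_pow,
      Polynomial.eval_X, sub_self, zero_mul, sub_zero, Polynomial.eval_zero] at h9
    rcases mul_eq_zero.1 h9 with h10 | h10
    · exact h10
    · exact absurd (eq_zero_of_pow_eq_zero h10) hhc
  have hsp : ⊤ ≤ Submodule.span κ (Set.range β) := by
    intro x _
    obtain ⟨r, rfl⟩ := Ideal.Quotient.mk_surjective x
    obtain ⟨n, p, hp⟩ := hgood (r : C) r.2
    have h2 : Polynomial.aeval z h ^ n * r = ∑ j, Polynomial.aeval z (p j) * ⟨b j, hb j⟩ := by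
      apply Subtype.ext
      have e0 : ∀ q : Polynomial κ, ((Polynomial.aeval z q : R) : C) =
          Polynomial.aeval (z : C) q := fun q => (Polynomial.aeval_algHom_apply R.val z q).symm
      rw [AddSubmonoidClass.coe_finsetSum]
      have e3 : ((Polynomial.aeval z h ^ n * r : R) : C) =
          Polynomial.aeval (z : C) h ^ n * (r : C) := by
        rw [← e0]
        rfl
      rw [e3, hp]
      refine Finset.sum_congr rfl fun j _ => ?_
      rw [← e0]
      rfl
    have h3 := congrArg (Ideal.Quotient.mk I) h2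
    rw [map_mul, map_pow, hpc, map_sum, ← map_pow] at h3
    have h4 : Ideal.Quotient.mk I r = ∑ j, ((h.eval c ^ n)⁻¹ * (p j).eval c) • β j := by
      have h5 : (h.eval c ^ n)⁻¹ • (algebraMap κ (R ⧸ I) (h.eval c ^ n) * Ideal.Quotient.mk I r) =
          Ideal.Quotient.mk I r := by
        rw [← Algebra.smul_def, smul_smul, inv_mul_cancel₀ (pow_ne_zero n hhc), one_smul]
      rw [← h5, h3, Finset.smul_sum]
      refine Finset.sum_congr rfl fun j _ => ?_
      rw [map_mul, hpc, ← Algebra.smul_def, smul_smul, hβ]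
    rw [h4]
    exact Submodule.sum_mem _ fun j _ => Submodule.smul_mem _ _
      (Submodule.subset_span ⟨j, rfl⟩)
  exact Module.finrank_eq_card_basis (Module.Basis.mk hli hsp)

end Pool.Agent.H11.TD
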